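import Mathlib

namespace Pool.Agent.K7.H42.TL

/-- the p-th power of the distance to 0 on the circle, as a continuous complex function -/
noncomputable def fp (p : ℝ) (hp : 1 ≤ p) : C(UnitAddCircle, ℂ) :=
  ⟨fun t => ((‖t‖ ^ p : ℝ) : ℂ), by
    refine Complex.continuous_ofReal.comp ?_
    exact continuous_norm.rpow_const (fun _ => Or.inr (by linarith))⟩

/-- JOB DIFF : second difference of the function ‖t‖^p: integral of the absolute value. -/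
def StDiff : Prop := ∀ p : ℝ, 1 ≤ p → ∀ h : ℝ, 0 < h → h ≤ 1 / 2 →
  ∫ t : UnitAddCircle, |‖t + (h : UnitAddCircle)‖ ^ p + ‖t - (h : UnitAddCircle)‖ ^ p - 2 * ‖t‖ ^ p|
    ∂AddCircle.haarAddCircle ≤ 8 * p * h ^ 2

/-- JOB COEFF : Fourier coefficients. -/
def StCoeff : Prop := ∀ (p : ℝ) (hp : 1 ≤ p) (k : ℤ), k ≠ 0 →
  ‖fourierCoeff (fp p hp) k‖ ≤ p / (2 * (k : ℝ) ^ 2)

/-- JOB TAIL : for every p >= 1 the Fourier series converges absolutely to the function and the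
tail is at most p / D. -/
def StTail : Prop := ∀ (p : ℝ) (hp : 1 ≤ p),
  Summable (fun k : ℤ => ‖fourierCoeff (fp p hp) k‖) ∧
  (∀ D : ℕ, 1 ≤ D → ∑' k : ℤ, (if (D : ℤ) < |k| then ‖fourierCoeff (fp p hp) k‖ else 0) ≤ p / D) ∧
  (∀ t : UnitAddCircle, HasSum (fun k : ℤ => fourierCoeff (fp p hp) k * fourier k t)
    ((‖t‖ ^ p : ℝ) : ℂ))

/-- JOB MAIN. -/
def StMain : Prop := ∀ (p : ℝ), 1 ≤ p → ∀ (n : ℕ), 1 ≤ n → ∀ (lam : ℝ), 0 < lam →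
  ∀ A : Finset (Fin n → UnitAddCircle), 2 ≤ A.card →
    (∀ x ∈ A, ∀ y ∈ A, x ≠ y → ∑ i, ‖x i - y i‖ ^ p = lam) →
    (A.card : ℝ) * lam ≤ (8 * p + 3) * (n : ℝ) ^ 2

end Pool.Agent.K7.H42.TL
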