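import Mathlib
import Pool.Agent.K7.H42.TL.Stm

namespace Pool.Agent.K7.H42.TL

open scoped InnerProductSpace ComplexConjugate
open Finset

section
variable {n : ℕ} (A : Finset (Fin n → UnitAddCircle))

/-- the exponential vectors -/
noncomputable def ev (k : ℤ) (i : Fin n) : EuclideanSpace ℂ A :=
  WithLp.toLp 2 (fun x : A => (fourier k (x.1 i) : ℂ))

lemma ev_apply (k : ℤ) (i : Fin n) (x : A) : (ev A k i) x = (fourier k (x.1 i) : ℂ) := rfl

lemma norm_fourier (k : ℤ) (t : UnitAddCircle) : ‖(fourier k t : ℂ)‖ = 1 := by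
  rw [fourier_apply]; exact Circle.norm_coe _

lemma norm_ev (k : ℤ) (i : Fin n) : ‖ev A k i‖ ^ 2 = (A.card : ℝ) := by
  rw [EuclideanSpace.norm_sq_eq]
  simp only [ev_apply, norm_fourier]
  simp

/-- span of the low frequencies -/
noncomputable def lowS (D : ℕ) : Submodule ℂ (EuclideanSpace ℂ A) :=
  Submodule.span ℂ (Set.range (fun q : (Finset.Icc (-(D : ℤ)) D) × Fin n => ev A q.1 q.2))

lemma finrank_low (D : ℕ) : Module.finrank ℂ (lowS A D) ≤ (2 * D + 1) * n := by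
  have h := finrank_range_le_card (R := ℂ)
    (fun q : (Finset.Icc (-(D : ℤ)) D) × Fin n => ev A q.1 q.2)
  have hc : Fintype.card ((Finset.Icc (-(D : ℤ)) D) × Fin n) = (2 * D + 1) * n := by
    rw [Fintype.card_prod, Fintype.card_coe, Int.card_Icc, Fintype.card_fin]
    congr 1
    omega
  rw [hc] at h
  exact h

lemma ev_mem (D : ℕ) (k : ℤ) (hk : |k| ≤ D) (i : Fin n) : ev A k i ∈ lowS A D := by
  apply Submodule.subset_span
  refine ⟨⟨⟨k, ?_⟩, i⟩, rfl⟩
  rw [Finset.mem_Icc]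
  exact abs_le.1 hk

lemma finrank_orth (D : ℕ) :
    A.card ≤ Module.finrank ℂ (lowS A D)ᗮ + (2 * D + 1) * n := by
  have h1 := (lowS A D).finrank_add_finrank_orthogonal
  have h2 : Module.finrank ℂ (EuclideanSpace ℂ A) = A.card := by
    rw [finrank_euclideanSpace, Fintype.card_coe]
  have h3 := finrank_low A D
  omega

lemma inner_ev (w : EuclideanSpace ℂ A) (k : ℤ) (i : Fin n) :
    ⟪w, ev A k i⟫_ℂ = ∑ x : A, conj (w x) * (fourier k (x.1 i) : ℂ) := by
  rw [PiLp.inner_apply]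
  refine Finset.sum_congr rfl fun x _ => ?_
  rw [ev_apply]
  simp [mul_comm]

lemma fourier_sub' (k : ℤ) (a b : UnitAddCircle) :
    (fourier k (a - b) : ℂ) = (fourier k a : ℂ) * conj (fourier k b : ℂ) := by
  rw [fourier_apply, fourier_apply, fourier_apply, smul_sub, sub_eq_add_neg, AddCircle.toCircle_add,
    AddCircle.toCircle_neg, Circle.coe_mul, Circle.coe_inv_eq_conj]

lemma term_eq (w : EuclideanSpace ℂ A) (k : ℤ) (i : Fin n) :
    ∑ x : A, ∑ y : A, conj (w x) * w y * (fourier k (x.1 i - y.1 i) : ℂ)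
      = ((‖⟪w, ev A k i⟫_ℂ‖ ^ 2 : ℝ) : ℂ) := by
  have h1 : ((‖⟪w, ev A k i⟫_ℂ‖ ^ 2 : ℝ) : ℂ) = ⟪w, ev A k i⟫_ℂ * conj ⟪w, ev A k i⟫_ℂ := by
    rw [Complex.mul_conj, Complex.normSq_eq_norm_sq]
  rw [h1, inner_ev, map_sum, Finset.sum_mul_sum]
  refine Finset.sum_congr rfl fun x _ => Finset.sum_congr rfl fun y _ => ?_
  rw [fourier_sub', map_mul, Complex.conj_conj]
  ring

end

variable {n : ℕ} (A : Finset (Fin n → UnitAddCircle))

/-- one vector -/
lemma key (p : ℝ) (hp : 1 ≤ p) (hT : StTail) (hn : 1 ≤ n) (lam : ℝ) (hlam : 0 < lam)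
    (hA : ∀ x ∈ A, ∀ y ∈ A, x ≠ y → ∑ i, ‖x i - y i‖ ^ p = lam) (D : ℕ)
    (w : EuclideanSpace ℂ A) (hw : w ∈ (lowS A D)ᗮ) :
    lam * ‖w‖ ^ 2 ≤ ∑ i, ∑' k : ℤ,
      (if (D : ℤ) < |k| then ‖fourierCoeff (fp p hp) k‖ else 0) * ‖⟪w, ev A k i⟫_ℂ‖ ^ 2 := by
  classical
  obtain ⟨hs, -, hf⟩ := hT p hp
  have horth : ∀ k : ℤ, |k| ≤ D → ∀ i, ⟪w, ev A k i⟫_ℂ = 0 := fun k hk i =>
    (Submodule.mem_orthogonal' _ _).1 hw _ (ev_mem A D k hk i)
  -- the sum of w is 0
  have hsum : ∑ y : A, conj (w y) = 0 := by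
    have := horth 0 (by simp) ⟨0, hn⟩
    rw [inner_ev] at this
    simpa using this
  -- (a)
  have ha : ∑ x : A, ∑ y : A, conj (w x) * w y * ((∑ i, ‖x.1 i - y.1 i‖ ^ p : ℝ) : ℂ)
      = -((lam * ‖w‖ ^ 2 : ℝ) : ℂ) := by
    have h1 : ∀ x y : A, ((∑ i, ‖x.1 i - y.1 i‖ ^ p : ℝ) : ℂ)
        = (lam : ℂ) - (if x = y then (lam : ℂ) else 0) := by
      intro x y
      by_cases hxy : x = y
      · subst hxy
        have : ∀ i : Fin n, ‖x.1 i - x.1 i‖ ^ p = 0 := by
          intro i; rw [sub_self, norm_zero, Real.zero_rpow (by linarith)]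
        rw [Finset.sum_congr rfl (fun i _ => this i)]
        simp
      · have : x.1 ≠ y.1 := fun h => hxy (Subtype.ext h)
        rw [hA x.1 x.2 y.1 y.2 this]
        simp [hxy]
    have h2 : ∑ x : A, ∑ y : A, conj (w x) * w y * ((∑ i, ‖x.1 i - y.1 i‖ ^ p : ℝ) : ℂ)
        = (lam : ℂ) * ((∑ x : A, conj (w x)) * (∑ y : A, w y))
          - (lam : ℂ) * ∑ x : A, conj (w x) * w x := by
      rw [Finset.sum_mul_sum, Finset.mul_sum, Finset.mul_sum, ← Finset.sum_sub_distrib]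
      refine Finset.sum_congr rfl fun x _ => ?_
      rw [Finset.mul_sum]
      have : ∑ y : A, conj (w x) * w y * ((∑ i, ‖x.1 i - y.1 i‖ ^ p : ℝ) : ℂ)
          = ∑ y : A, ((lam : ℂ) * (conj (w x) * w y)
            - (if x = y then (lam : ℂ) * (conj (w x) * w y) else 0)) := by
        refine Finset.sum_congr rfl fun y _ => ?_
        rw [h1 x y]
        split_ifs <;> ring
      rw [this, Finset.sum_sub_distrib, Finset.sum_ite_eq]
      simp
    rw [h2, hsum, zero_mul, mul_zero, zero_sub]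
    congr 1
    rw [EuclideanSpace.norm_sq_eq]
    push_cast
    congr 1
    refine Finset.sum_congr rfl fun x _ => ?_
    rw [mul_comm, Complex.mul_conj, Complex.normSq_eq_norm_sq]
    push_cast
    rfl
  -- (b)
  have hb : ∀ i : Fin n, HasSum (fun k : ℤ => fourierCoeff (fp p hp) k
      * ((‖⟪w, ev A k i⟫_ℂ‖ ^ 2 : ℝ) : ℂ))
      (∑ x : A, ∑ y : A, conj (w x) * w y * ((‖x.1 i - y.1 i‖ ^ p : ℝ) : ℂ)) := by
    intro i
    have h1 : ∀ x y : A, HasSum (fun k : ℤ => conj (w x) * w y *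
        (fourierCoeff (fp p hp) k * fourier k (x.1 i - y.1 i)))
        (conj (w x) * w y * ((‖x.1 i - y.1 i‖ ^ p : ℝ) : ℂ)) := fun x y =>
      (hf _).mul_left _
    have h2 := hasSum_sum (s := (Finset.univ : Finset A)) (fun x _ =>
      hasSum_sum (s := (Finset.univ : Finset A)) (fun y _ => h1 x y))
    have h3 : (fun k : ℤ => fourierCoeff (fp p hp) k * ((‖⟪w, ev A k i⟫_ℂ‖ ^ 2 : ℝ) : ℂ))
        = fun k : ℤ => ∑ x : A, ∑ y : A, conj (w x) * w y *
        (fourierCoeff (fp p hp) k * fourier k (x.1 i - y.1 i)) := by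
      funext k
      rw [← term_eq, Finset.mul_sum]
      refine Finset.sum_congr rfl fun x _ => ?_
      rw [Finset.mul_sum]
      refine Finset.sum_congr rfl fun y _ => ?_
      ring
    rw [h3]
    exact h2
  -- summability of the majorant
  have hwb : ∀ k i, ‖⟪w, ev A k i⟫_ℂ‖ ^ 2 ≤ ‖w‖ ^ 2 * A.card := by
    intro k i
    rw [← norm_ev A k i, ← mul_pow]
    exact pow_le_pow_left₀ (norm_nonneg _) (norm_inner_le_norm _ _) 2
  have hsm : ∀ i : Fin n, Summable fun k : ℤ =>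
      (if (D : ℤ) < |k| then ‖fourierCoeff (fp p hp) k‖ else 0) * ‖⟪w, ev A k i⟫_ℂ‖ ^ 2 := by
    intro i
    refine Summable.of_nonneg_of_le (fun k => ?_) (fun k => ?_) (hs.mul_right (‖w‖ ^ 2 * A.card))
    · positivity
    · refine mul_le_mul ?_ (hwb k i) (by positivity) (norm_nonneg _)
      split_ifs
      · exact le_rfl
      · exact norm_nonneg _
  have hc : ∀ i : Fin n, ‖∑ x : A, ∑ y : A, conj (w x) * w y * ((‖x.1 i - y.1 i‖ ^ p : ℝ) : ℂ)‖
      ≤ ∑' k : ℤ, (if (D : ℤ) < |k| then ‖fourierCoeff (fp p hp) k‖ else 0) *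
        ‖⟪w, ev A k i⟫_ℂ‖ ^ 2 := by
    intro i
    refine (hb i).tsum_eq ▸ tsum_of_norm_bounded (hsm i).hasSum (fun k => ?_)
    rw [norm_mul]
    split_ifs with h
    · rw [Complex.norm_real, Real.norm_of_nonneg (by positivity)]
    · rw [horth k (not_lt.1 h) i]
      simp
  -- conclusion
  have hfin : ∑ x : A, ∑ y : A, conj (w x) * w y * ((∑ i, ‖x.1 i - y.1 i‖ ^ p : ℝ) : ℂ)
      = ∑ i, ∑ x : A, ∑ y : A, conj (w x) * w y * ((‖x.1 i - y.1 i‖ ^ p : ℝ) : ℂ) := by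
    have h1 : ∀ x y : A, conj (w x) * w y * ((∑ i, ‖x.1 i - y.1 i‖ ^ p : ℝ) : ℂ)
        = ∑ i, conj (w x) * w y * ((‖x.1 i - y.1 i‖ ^ p : ℝ) : ℂ) := by
      intro x y
      rw [Complex.ofReal_sum, Finset.mul_sum]
    rw [Finset.sum_congr rfl fun x _ => Finset.sum_congr rfl fun y _ => h1 x y]
    rw [Finset.sum_congr rfl fun x _ => Finset.sum_comm]
    rw [Finset.sum_comm]
  calc lam * ‖w‖ ^ 2 = ‖-((lam * ‖w‖ ^ 2 : ℝ) : ℂ)‖ := by
        rw [norm_neg, Complex.norm_real, Real.norm_of_nonneg (by positivity)]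
    _ = ‖∑ i, ∑ x : A, ∑ y : A, conj (w x) * w y * ((‖x.1 i - y.1 i‖ ^ p : ℝ) : ℂ)‖ := by
        rw [← ha, hfin]
    _ ≤ ∑ i, ‖∑ x : A, ∑ y : A, conj (w x) * w y * ((‖x.1 i - y.1 i‖ ^ p : ℝ) : ℂ)‖ :=
        norm_sum_le _ _
    _ ≤ _ := Finset.sum_le_sum fun i _ => hc i

/-- the main estimate -/
theorem main_of (hT : StTail) : StMain := by
  classical
  intro p hp n hn lam hlam A hA2 hA
  have hn0 : (0 : ℝ) < n := by exact_mod_cast hn
  have hp0 : (0 : ℝ) < p := by linarith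
  -- the size of `lam`
  have hlamn : lam ≤ n / 2 := by
    obtain ⟨x, hx, y, hy, hxy⟩ := Finset.one_lt_card.1 (show 1 < A.card by omega)
    rw [← hA x hx y hy hxy]
    calc ∑ i, ‖x i - y i‖ ^ p ≤ ∑ _i : Fin n, (1 / 2 : ℝ) := by
          refine Finset.sum_le_sum fun i _ => ?_
          have h1 : ‖x i - y i‖ ≤ 1 / 2 := by
            have := AddCircle.norm_le_half_period (1 : ℝ) (x := x i - y i) one_ne_zero
            simpa using this
          calc ‖x i - y i‖ ^ p ≤ (1 / 2 : ℝ) ^ p :=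
                Real.rpow_le_rpow (norm_nonneg _) h1 (by linarith)
            _ ≤ (1 / 2 : ℝ) ^ (1 : ℝ) :=
                Real.rpow_le_rpow_of_exponent_ge (by norm_num) (by norm_num) hp
            _ = 1 / 2 := Real.rpow_one _
      _ = n / 2 := by simp; ring
  set D : ℕ := ⌈2 * p * n / lam⌉₊ with hD
  have hD1 : 1 ≤ D := Nat.ceil_pos.2 (by positivity)
  have hD0 : (0 : ℝ) < D := by exact_mod_cast hD1
  have hD2 : 2 * p * n / lam ≤ D := Nat.le_ceil _
  have hD3 : (D : ℝ) < 2 * p * n / lam + 1 := Nat.ceil_lt_add_one (by positivity)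
  set cD : ℤ → ℝ := fun k => if (D : ℤ) < |k| then ‖fourierCoeff (fp p hp) k‖ else 0 with hcD
  have hcD0 : ∀ k, 0 ≤ cD k := by
    intro k
    simp only [hcD]
    split_ifs
    · exact norm_nonneg _
    · exact le_rfl
  have hcs : Summable cD := by
    refine Summable.of_nonneg_of_le hcD0 (fun k => ?_) (hT p hp).1
    simp only [hcD]
    split_ifs
    · exact le_rfl
    · exact norm_nonneg _
  set m := Module.finrank ℂ (lowS A D)ᗮ with hm
  have hmN : (A.card : ℝ) ≤ m + (2 * D + 1) * n := by exact_mod_cast finrank_orth A D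
  set b := stdOrthonormalBasis ℂ (lowS A D)ᗮ with hb
  have horn : Orthonormal ℂ (fun j => ((b j : (lowS A D)ᗮ) : EuclideanSpace ℂ A)) :=
    b.orthonormal.comp_linearIsometry (lowS A D)ᗮ.subtypeₗᵢ
  have h1 : ∀ j, lam ≤ ∑ i, ∑' k : ℤ, cD k *
      ‖⟪((b j : (lowS A D)ᗮ) : EuclideanSpace ℂ A), ev A k i⟫_ℂ‖ ^ 2 := by
    intro j
    have h := key A p hp hT hn lam hlam hA D (b j) (b j).2
    rw [horn.1 j, one_pow, mul_one] at h
    exact h
  have hwb : ∀ j k i, ‖⟪((b j : (lowS A D)ᗮ) : EuclideanSpace ℂ A), ev A k i⟫_ℂ‖ ^ 2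
      ≤ (A.card : ℝ) := by
    intro j k i
    have h := norm_inner_le_norm (𝕜 := ℂ) ((b j : (lowS A D)ᗮ) : EuclideanSpace ℂ A) (ev A k i)
    rw [horn.1 j, one_mul] at h
    calc _ ≤ ‖ev A k i‖ ^ 2 := pow_le_pow_left₀ (norm_nonneg _) h 2
      _ = _ := norm_ev A k i
  have hsm : ∀ j i, Summable fun k : ℤ => cD k *
      ‖⟪((b j : (lowS A D)ᗮ) : EuclideanSpace ℂ A), ev A k i⟫_ℂ‖ ^ 2 := by
    intro j i
    refine Summable.of_nonneg_of_le (fun k => mul_nonneg (hcD0 k) (by positivity)) (fun k => ?_)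
      (hcs.mul_right (A.card : ℝ))
    exact mul_le_mul_of_nonneg_left (hwb j k i) (hcD0 k)
  have h2 : lam * m ≤ ∑ j, ∑ i, ∑' k : ℤ, cD k *
      ‖⟪((b j : (lowS A D)ᗮ) : EuclideanSpace ℂ A), ev A k i⟫_ℂ‖ ^ 2 := by
    calc lam * m = ∑ _j : Fin m, lam := by simp [mul_comm]
      _ ≤ _ := Finset.sum_le_sum fun j _ => h1 j
  have h3 : ∑ j, ∑ i, ∑' k : ℤ, cD k *
      ‖⟪((b j : (lowS A D)ᗮ) : EuclideanSpace ℂ A), ev A k i⟫_ℂ‖ ^ 2
      ≤ ∑ _i : Fin n, (p / D) * A.card := by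
    rw [Finset.sum_comm]
    refine Finset.sum_le_sum fun i _ => ?_
    rw [← Summable.tsum_finsetSum (fun j _ => hsm j i)]
    calc ∑' k : ℤ, ∑ j, cD k *
          ‖⟪((b j : (lowS A D)ᗮ) : EuclideanSpace ℂ A), ev A k i⟫_ℂ‖ ^ 2
        ≤ ∑' k : ℤ, cD k * A.card := by
          refine Summable.tsum_le_tsum (fun k => ?_) (summable_sum fun j _ => hsm j i)
            (hcs.mul_right _)
          rw [← Finset.mul_sum]
          refine mul_le_mul_of_nonneg_left ?_ (hcD0 k)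
          rw [← norm_ev A k i]
          exact horn.sum_inner_products_le (ev A k i)
      _ = (∑' k : ℤ, cD k) * A.card := tsum_mul_right
      _ ≤ (p / D) * A.card := by
          refine mul_le_mul_of_nonneg_right ?_ (by positivity)
          exact (hT p hp).2.1 D hD1
  have h4 : lam * m ≤ n * ((p / D) * A.card) := by
    refine (h2.trans h3).trans (le_of_eq ?_)
    simp
  have h5 : n * (p / D) ≤ lam / 2 := by
    have : 2 * p * n ≤ D * lam := by
      rw [div_le_iff₀ hlam] at hD2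
      exact hD2
    rw [mul_div_assoc', div_le_iff₀ hD0]
    nlinarith
  have h6 : lam * m ≤ lam / 2 * A.card := by
    calc lam * m ≤ n * ((p / D) * A.card) := h4
      _ = n * (p / D) * A.card := by ring
      _ ≤ lam / 2 * A.card := mul_le_mul_of_nonneg_right h5 (by positivity)
  have h7 : D * lam ≤ 2 * p * n + lam := by
    have h8 := mul_le_mul_of_nonneg_right hD3.le hlam.le
    have h9 : (2 * p * n / lam + 1) * lam = 2 * p * n + lam := by
      field_simp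
    linarith
  have h8 : lam * A.card ≤ lam * m + lam * ((2 * D + 1) * n) := by
    nlinarith [mul_le_mul_of_nonneg_left hmN hlam.le]
  have h9 : lam * ((2 * D + 1) * n) ≤ (4 * p * n + 3 * lam) * n := by
    have : lam * ((2 * D + 1) * n) = (2 * (D * lam) + lam) * n := by ring
    rw [this]
    refine mul_le_mul_of_nonneg_right ?_ hn0.le
    linarith
  have h10 : lam * n ≤ n / 2 * n := mul_le_mul_of_nonneg_right hlamn hn0.le
  nlinarith

end Pool.Agent.K7.H42.TL
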